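import Mathlib

set_option autoImplicit false
set_option linter.unusedSectionVars false
set_option linter.unusedVariables false
open Matrix

namespace Pool.Agent.Results.MP_46ffdd_an.LeeConcaveFrobenius

section basics
variable {ι : Type*} [Fintype ι] [DecidableEq ι]

/-- squared Frobenius norm -/
noncomputable def hs (X : Matrix ι ι ℂ) : ℝ := ∑ i, ∑ j, ‖X i j‖ ^ 2

lemma hs_nonneg (X : Matrix ι ι ℂ) : 0 ≤ hs X :=
  Finset.sum_nonneg fun i _ => Finset.sum_nonneg fun j _ => sq_nonneg _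

lemma hs_trace (X : Matrix ι ι ℂ) : (Xᴴ * X).trace = (hs X : ℂ) := by
  unfold hs Matrix.trace
  simp only [diag_apply, Matrix.mul_apply, conjTranspose_apply]
  rw [Finset.sum_comm]
  push_cast
  refine Finset.sum_congr rfl fun i _ => Finset.sum_congr rfl fun j _ => ?_
  rw [← Complex.conj_mul']
  rfl

lemma hs_conj (X : Matrix ι ι ℂ) : hs Xᴴ = hs X := by
  unfold hs
  rw [Finset.sum_comm]
  refine Finset.sum_congr rfl fun i _ => Finset.sum_congr rfl fun j _ => ?_
  rw [conjTranspose_apply, norm_star]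

/-- Cauchy-Schwarz -/
lemma cs (X Y : Matrix ι ι ℂ) : ‖(Xᴴ * Y).trace‖ ^ 2 ≤ hs X * hs Y := by
  have h1 : ‖(Xᴴ * Y).trace‖ ≤ ∑ p : ι × ι, ‖X p.1 p.2‖ * ‖Y p.1 p.2‖ := by
    unfold Matrix.trace
    simp only [diag_apply, Matrix.mul_apply, conjTranspose_apply]
    rw [Finset.sum_comm, ← Fintype.sum_prod_type']
    refine le_trans (norm_sum_le _ _) (Finset.sum_le_sum fun p _ => ?_)
    rw [norm_mul, norm_star]
  have h2 := Finset.sum_mul_sq_le_sq_mul_sq Finset.univ (fun p : ι × ι => ‖X p.1 p.2‖)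
    (fun p : ι × ι => ‖Y p.1 p.2‖)
  have h3 : ∀ Z : Matrix ι ι ℂ, hs Z = ∑ p : ι × ι, ‖Z p.1 p.2‖ ^ 2 := by
    intro Z
    unfold hs
    rw [← Fintype.sum_prod_type']
  rw [h3 X, h3 Y]
  refine le_trans ?_ h2
  exact pow_le_pow_left₀ (norm_nonneg _) h1 2

/-- `U diag(φ) U*` -/
noncomputable def C (U : Matrix ι ι ℂ) (φ : ι → ℝ) : Matrix ι ι ℂ :=
  U * Matrix.diagonal (fun i => ((φ i : ℝ) : ℂ)) * Uᴴ

lemma C_mul (U : Matrix ι ι ℂ) (hU : Uᴴ * U = 1) (φ ψ : ι → ℝ) :
    C U φ * C U ψ = C U (fun i => φ i * ψ i) := by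
  unfold C
  calc U * Matrix.diagonal (fun i => ((φ i : ℝ) : ℂ)) * Uᴴ * (U * Matrix.diagonal (fun i => ((ψ i : ℝ) : ℂ)) * Uᴴ)
      = U * Matrix.diagonal (fun i => ((φ i : ℝ) : ℂ)) * (Uᴴ * U) * Matrix.diagonal (fun i => ((ψ i : ℝ) : ℂ)) * Uᴴ := by
        simp only [Matrix.mul_assoc]
    _ = U * (Matrix.diagonal (fun i => ((φ i : ℝ) : ℂ)) * Matrix.diagonal (fun i => ((ψ i : ℝ) : ℂ))) * Uᴴ := by
        rw [hU]; simp only [Matrix.mul_assoc, Matrix.one_mul]
    _ = _ := by rw [Matrix.diagonal_mul_diagonal]; simp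

lemma C_herm (U : Matrix ι ι ℂ) (φ : ι → ℝ) : (C U φ)ᴴ = C U φ := by
  unfold C
  rw [conjTranspose_mul, conjTranspose_mul, conjTranspose_conjTranspose, diagonal_conjTranspose,
    Matrix.mul_assoc]
  congr 2
  congr 1
  ext i
  simp

lemma C_trace (U : Matrix ι ι ℂ) (hU : Uᴴ * U = 1) (φ : ι → ℝ) :
    (C U φ).trace = ((∑ i, φ i : ℝ) : ℂ) := by
  unfold C
  rw [Matrix.mul_assoc, Matrix.trace_mul_comm, Matrix.mul_assoc, hU, Matrix.mul_one]
  unfold Matrix.trace
  simp

lemma C_add (U : Matrix ι ι ℂ) (φ ψ : ι → ℝ) : C U φ + C U ψ = C U (fun i => φ i + ψ i) := by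
  unfold C
  rw [← Matrix.add_mul, ← Matrix.mul_add, Matrix.diagonal_add]
  simp

lemma C_one (U : Matrix ι ι ℂ) (hU : U * Uᴴ = 1) : C U (fun _ => 1) = 1 := by
  unfold C
  simp [hU]

lemma C_zero (U : Matrix ι ι ℂ) : C U (fun _ => 0) = 0 := by
  unfold C
  simp

lemma hs_C (U : Matrix ι ι ℂ) (hU : Uᴴ * U = 1) (φ : ι → ℝ) : hs (C U φ) = ∑ i, φ i ^ 2 := by
  have h := hs_trace (C U φ)
  rw [C_herm, C_mul U hU, C_trace U hU] at h
  have h2 : (∑ i, φ i * φ i) = hs (C U φ) := by exact_mod_cast h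
  rw [← h2]
  exact Finset.sum_congr rfl fun i _ => (sq (φ i)).symm

lemma trace_CC (U V : Matrix ι ι ℂ) (φ ψ : ι → ℝ) :
    (C U φ * C V ψ).trace = ((∑ i, ∑ j, φ i * ψ j * ‖(Uᴴ * V) i j‖ ^ 2 : ℝ) : ℂ) := by
  have h1 : (C U φ * C V ψ).trace
      = (Matrix.diagonal (fun i => ((φ i : ℝ) : ℂ)) * ((Uᴴ * V) *
        Matrix.diagonal (fun i => ((ψ i : ℝ) : ℂ)) * (Uᴴ * V)ᴴ)).trace := by
    unfold C
    calc (U * Matrix.diagonal (fun i => ((φ i : ℝ) : ℂ)) * Uᴴ *
          (V * Matrix.diagonal (fun i => ((ψ i : ℝ) : ℂ)) * Vᴴ)).trace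
        = (U * (Matrix.diagonal (fun i => ((φ i : ℝ) : ℂ)) * Uᴴ *
          (V * Matrix.diagonal (fun i => ((ψ i : ℝ) : ℂ)) * Vᴴ))).trace := by
          simp only [Matrix.mul_assoc]
      _ = ((Matrix.diagonal (fun i => ((φ i : ℝ) : ℂ)) * Uᴴ *
          (V * Matrix.diagonal (fun i => ((ψ i : ℝ) : ℂ)) * Vᴴ)) * U).trace := by
          rw [Matrix.trace_mul_comm]
      _ = _ := by
          rw [conjTranspose_mul, conjTranspose_conjTranspose]
          simp only [Matrix.mul_assoc]
  rw [h1]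
  unfold Matrix.trace
  simp only [diag_apply, Matrix.diagonal_mul]
  push_cast
  refine Finset.sum_congr rfl fun i _ => ?_
  rw [Matrix.mul_apply, Finset.mul_sum]
  refine Finset.sum_congr rfl fun j _ => ?_
  rw [Matrix.mul_diagonal, conjTranspose_apply, ← Complex.mul_conj']
  simp only [RCLike.star_def]
  ring

lemma C_sub (U : Matrix ι ι ℂ) (φ ψ : ι → ℝ) : C U φ - C U ψ = C U (fun i => φ i - ψ i) := by
  unfold C
  rw [← Matrix.sub_mul, ← Matrix.mul_sub, Matrix.diagonal_sub]
  simp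

lemma hs_eq_zero (X : Matrix ι ι ℂ) (h : hs X = 0) : X = 0 := by
  unfold hs at h
  rw [Finset.sum_eq_zero_iff_of_nonneg (fun i _ => Finset.sum_nonneg fun j _ => sq_nonneg _)] at h
  ext i j
  have h1 := h i (Finset.mem_univ i)
  rw [Finset.sum_eq_zero_iff_of_nonneg (fun j _ => sq_nonneg _)] at h1
  have h2 := h1 j (Finset.mem_univ j)
  simpa using h2

end basics

section proj
variable {ι : Type*} [Fintype ι] [DecidableEq ι]

lemma rank_add_le' (A B : Matrix ι ι ℂ) : (A + B).rank ≤ A.rank + B.rank := by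
  unfold Matrix.rank
  rw [mulVecLin_add]
  refine le_trans (Submodule.finrank_mono ?_) (Submodule.finrank_add_le_finrank_add_finrank _ _)
  rintro _ ⟨x, rfl⟩
  exact Submodule.mem_sup.mpr ⟨_, ⟨x, rfl⟩, _, ⟨x, rfl⟩, rfl⟩

lemma rank_C (U : Matrix ι ι ℂ) (hU : Uᴴ * U = 1) (φ : ι → ℝ) :
    (C U φ).rank = Fintype.card {i // φ i ≠ 0} := by
  have hdet : IsUnit U.det := by
    have h := congrArg Matrix.det hU
    rw [Matrix.det_mul, Matrix.det_one] at h
    exact IsUnit.of_mul_eq_one_right _ h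
  have hdet' : IsUnit (Uᴴ).det := by
    have h := congrArg Matrix.det hU
    rw [Matrix.det_mul, Matrix.det_one] at h
    exact IsUnit.of_mul_eq_one _ h
  unfold C
  rw [rank_mul_eq_left_of_isUnit_det _ _ hdet', rank_mul_eq_right_of_isUnit_det _ _ hdet,
    Matrix.rank_diagonal]
  refine Fintype.card_congr (Equiv.subtypeEquivRight fun i => ?_)
  simp

/-- Projection `F` onto the orthogonal complement of the sum of two ranges. -/
lemma exists_F (U V : Matrix ι ι ℂ) (hU : Uᴴ * U = 1) (hV : Vᴴ * V = 1) (p q : ι → Prop)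
    [DecidablePred p] [DecidablePred q] :
    ∃ F : Matrix ι ι ℂ, Fᴴ = F ∧ F * F = F ∧ C U (fun i => if p i then 1 else 0) * F = 0 ∧
      C V (fun i => if q i then 1 else 0) * F = 0 ∧
      ∃ e : ℝ, (1 - F).trace = (e : ℂ) ∧
        e ≤ (∑ i, if p i then (1 : ℝ) else 0) + ∑ i, if q i then (1 : ℝ) else 0 := by
  set EA := C U (fun i => if p i then (1 : ℝ) else 0) with hEA
  set EB := C V (fun i => if q i then (1 : ℝ) else 0) with hEB
  have hEAA : EA * EA = EA := by
    rw [hEA, C_mul U hU]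
    congr 1
    ext i
    split_ifs <;> simp
  have hEBB : EB * EB = EB := by
    rw [hEB, C_mul V hV]
    congr 1
    ext i
    split_ifs <;> simp
  have hG : (EA + EB).IsHermitian := by
    show (EA + EB)ᴴ = EA + EB
    rw [conjTranspose_add, hEA, hEB, C_herm, C_herm]
  set g := hG.eigenvalues with hg
  set W : Matrix ι ι ℂ := (hG.eigenvectorUnitary : Matrix ι ι ℂ) with hW
  have hWW : Wᴴ * W = 1 := Matrix.mem_unitaryGroup_iff'.mp hG.eigenvectorUnitary.2
  have hWW' : W * Wᴴ = 1 := Matrix.mem_unitaryGroup_iff.mp hG.eigenvectorUnitary.2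
  have hGC : EA + EB = C W g := by
    have hs := hG.spectral_theorem
    rw [Unitary.conjStarAlgAut_apply] at hs
    exact hs
  set F := C W (fun i => if g i = 0 then (1 : ℝ) else 0) with hF
  have hFH : Fᴴ = F := C_herm _ _
  have hFF : F * F = F := by
    rw [hF, C_mul W hWW]
    congr 1
    ext i
    split_ifs <;> simp
  have hGF : (EA + EB) * F = 0 := by
    rw [hGC, hF, C_mul W hWW]
    rw [← C_zero W]
    congr 1
    ext i
    split_ifs with h
    · simp [h]
    · simp
  have hsum : hs (EA * F) + hs (EB * F) = 0 := by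
    have h1 := hs_trace (EA * F)
    have h2 := hs_trace (EB * F)
    have h3 : (EA * F)ᴴ * (EA * F) + (EB * F)ᴴ * (EB * F) = 0 := by
      rw [conjTranspose_mul, conjTranspose_mul, hFH]
      have a1 : EAᴴ = EA := C_herm _ _
      have a2 : EBᴴ = EB := C_herm _ _
      rw [a1, a2]
      calc F * EA * (EA * F) + F * EB * (EB * F) = F * ((EA * EA + EB * EB) * F) := by
            simp only [Matrix.mul_add, Matrix.add_mul, Matrix.mul_assoc]
        _ = 0 := by rw [hEAA, hEBB, hGF, Matrix.mul_zero]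
    have h4 : ((hs (EA * F) + hs (EB * F) : ℝ) : ℂ) = 0 := by
      push_cast
      rw [← h1, ← h2, ← Matrix.trace_add, h3, Matrix.trace_zero]
    exact_mod_cast h4
  have n1 := hs_nonneg (EA * F)
  have n2 := hs_nonneg (EB * F)
  refine ⟨F, hFH, hFF, hs_eq_zero _ (by linarith), hs_eq_zero _ (by linarith),
    ∑ i, (1 - (if g i = 0 then (1 : ℝ) else 0)), ?_, ?_⟩
  · rw [← C_one W hWW', hF, C_sub, C_trace W hWW]
  · have hr := rank_add_le' EA EB
    rw [hGC, rank_C W hWW, hEA, hEB, rank_C U hU, rank_C V hV] at hr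
    have c1 : ∑ i, (1 - (if g i = 0 then (1 : ℝ) else 0)) = (Fintype.card {i // g i ≠ 0} : ℝ) := by
      rw [Fintype.card_subtype, Finset.card_filter]
      push_cast
      refine Finset.sum_congr rfl fun i _ => ?_
      by_cases h : g i = 0 <;> simp [h]
    have c2 : ∀ (r : ι → Prop) [DecidablePred r],
        (∑ i, if r i then (1 : ℝ) else 0) = (Fintype.card {i // (if r i then (1 : ℝ) else 0) ≠ 0} : ℝ) := by
      intro r _
      rw [Fintype.card_subtype, Finset.card_filter]
      push_cast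
      refine Finset.sum_congr rfl fun i _ => ?_
      by_cases h : r i <;> simp [h]
    rw [c1, c2 p, c2 q]
    exact_mod_cast hr

end proj

section lemma5
variable {ι : Type*} [Fintype ι] [DecidableEq ι]

/-- real part of the trace -/
noncomputable def tr (X : Matrix ι ι ℂ) : ℝ := X.trace.re

lemma tr_add (X Y : Matrix ι ι ℂ) : tr (X + Y) = tr X + tr Y := by
  unfold tr; rw [Matrix.trace_add, Complex.add_re]

lemma tr_sub (X Y : Matrix ι ι ℂ) : tr (X - Y) = tr X - tr Y := by
  unfold tr; rw [Matrix.trace_sub, Complex.sub_re]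

lemma tr_comm (X Y : Matrix ι ι ℂ) : tr (X * Y) = tr (Y * X) := by
  unfold tr; rw [Matrix.trace_mul_comm]

lemma tr_conj (X : Matrix ι ι ℂ) : tr Xᴴ = tr X := by
  unfold tr; rw [Matrix.trace_conjTranspose]; simp

lemma hs_tr (X : Matrix ι ι ℂ) : tr (Xᴴ * X) = hs X := by
  unfold tr; rw [hs_trace, Complex.ofReal_re]

lemma tr_zero : tr (0 : Matrix ι ι ℂ) = 0 := by
  unfold tr; simp

lemma tr_cs (X Y : Matrix ι ι ℂ) : tr (Xᴴ * Y) ^ 2 ≤ hs X * hs Y := by
  refine le_trans ?_ (cs X Y)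
  unfold tr
  have h := Complex.abs_re_le_norm (Xᴴ * Y).trace
  rw [← sq_abs]
  exact pow_le_pow_left₀ (abs_nonneg _) h 2

lemma tr_lower (X Y : Matrix ι ι ℂ) : -(hs X + hs Y) ≤ 2 * tr (Xᴴ * Y) := by
  have h := tr_cs X Y
  have h1 := hs_nonneg X
  have h2 := hs_nonneg Y
  nlinarith [sq_nonneg (hs X - hs Y), sq_nonneg (hs X + hs Y + 2 * tr (Xᴴ * Y)),
    sq_nonneg (hs X + hs Y - 2 * tr (Xᴴ * Y))]

lemma C_sqrt (U : Matrix ι ι ℂ) (hU : Uᴴ * U = 1) (φ : ι → ℝ) (h : ∀ i, 0 ≤ φ i) :
    C U (fun i => Real.sqrt (φ i)) * C U (fun i => Real.sqrt (φ i)) = C U φ := by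
  rw [C_mul U hU]
  congr 1
  ext i
  exact Real.mul_self_sqrt (h i)

/-- Positivity of `tr (φ(U) X ψ(V) X*)`. -/
lemma tr_nonneg2 (U V X : Matrix ι ι ℂ) (hU : Uᴴ * U = 1) (hV : Vᴴ * V = 1) (φ ψ : ι → ℝ)
    (hφ : ∀ i, 0 ≤ φ i) (hψ : ∀ i, 0 ≤ ψ i) : 0 ≤ tr (C U φ * X * C V ψ * Xᴴ) := by
  have h := hs_nonneg (C U (fun i => Real.sqrt (φ i)) * X * C V (fun i => Real.sqrt (ψ i)))
  rw [← hs_tr] at h
  rw [conjTranspose_mul, conjTranspose_mul, C_herm, C_herm] at h
  have e : tr (C V (fun i => Real.sqrt (ψ i)) * (Xᴴ * C U (fun i => Real.sqrt (φ i))) *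
      (C U (fun i => Real.sqrt (φ i)) * X * C V (fun i => Real.sqrt (ψ i))))
      = tr (C U φ * X * C V ψ * Xᴴ) := by
    rw [← C_sqrt U hU φ hφ, ← C_sqrt V hV ψ hψ]
    set a := C U (fun i => Real.sqrt (φ i))
    set b := C V (fun i => Real.sqrt (ψ i))
    calc tr (b * (Xᴴ * a) * (a * X * b)) = tr ((b * Xᴴ) * (a * a * X * b)) := by
          simp only [Matrix.mul_assoc]
      _ = tr ((a * a * X * b) * (b * Xᴴ)) := tr_comm _ _
      _ = _ := by simp only [Matrix.mul_assoc]
  rw [e] at h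
  exact h

lemma tr_nonneg1 (U E : Matrix ι ι ℂ) (hU : Uᴴ * U = 1) (φ : ι → ℝ)
    (hφ : ∀ i, 0 ≤ φ i) (hE : Eᴴ = E) (hEE : E * E = E) : 0 ≤ tr (C U φ * E) := by
  have h := hs_nonneg (C U (fun i => Real.sqrt (φ i)) * E)
  rw [← hs_tr] at h
  rw [conjTranspose_mul, C_herm, hE] at h
  have e : tr (E * C U (fun i => Real.sqrt (φ i)) * (C U (fun i => Real.sqrt (φ i)) * E))
      = tr (C U φ * E) := by
    rw [← C_sqrt U hU φ hφ]
    set a := C U (fun i => Real.sqrt (φ i))
    calc tr (E * a * (a * E)) = tr (E * (a * a * E)) := by simp only [Matrix.mul_assoc]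
      _ = tr ((a * a * E) * E) := tr_comm _ _
      _ = _ := by rw [Matrix.mul_assoc, hEE]
  rw [e] at h
  exact h

/-- half of the main lemma: bounds for one of the two operators -/
lemma half (U E F : Matrix ι ι ℂ) (hU : Uᴴ * U = 1) (r : ι → ℝ) (p : ι → Prop) [DecidablePred p]
    (h0 : ∀ i, 0 ≤ r i) (h1 : ∀ i, r i ≤ 1) (hp : ∀ i, p i → r i = 1)
    (hE : Eᴴ = E) (hEE : E * E = E) (hF : F = 1 - E)
    (hA : C U (fun i => if p i then 1 else 0) * F = 0) :
    hs (F * C U r * E) + (∑ i, if p i then (1 : ℝ) else 0) ≤ tr (C U r * E) := by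
  have hFH : Fᴴ = F := by rw [hF, conjTranspose_sub, conjTranspose_one, hE]
  have hFF : F * F = F := by
    rw [hF, Matrix.mul_sub, Matrix.sub_mul, Matrix.sub_mul, hEE]; simp
  set R := C U r with hR
  set EA := C U (fun i => if p i then (1 : ℝ) else 0) with hEA
  set R' := C U (fun i => r i - if p i then (1 : ℝ) else 0) with hR'
  have hEAE : EA * E = EA := by
    have : EA * E = EA - EA * F := by rw [hF, Matrix.mul_sub, Matrix.mul_one]; abel
    rw [this, hA, sub_zero]
  have hEEA : E * EA = EA := by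
    have h := congrArg conjTranspose hEAE
    rw [conjTranspose_mul, hE, hEA, C_herm] at h
    exact h
  have hRsplit : R = EA + R' := by
    rw [hR, hEA, hR', C_add]
    congr 1
    ext i
    ring
  have hR'A : EA * R' = 0 := by
    rw [hEA, hR', C_mul U hU, ← C_zero U]
    congr 1
    ext i
    split_ifs with h
    · rw [hp i h]; ring
    · ring
  -- hs (F R E) = tr (R R E) - tr (R E R E)
  have e1 : hs (F * R * E) = tr (R * R * E) - tr (R * E * R * E) := by
    rw [← hs_tr, conjTranspose_mul, conjTranspose_mul, hE, hFH, hR, C_herm, ← hR]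
    calc tr (E * (R * F) * (F * R * E)) = tr (E * (R * (F * F) * R * E)) := by
          simp only [Matrix.mul_assoc]
      _ = tr ((R * (F * F) * R * E) * E) := tr_comm _ _
      _ = tr (R * F * R * E) := by rw [hFF, Matrix.mul_assoc (R * F * R) E E, hEE]
      _ = tr (R * R * E - R * E * R * E) := by
          rw [hF, Matrix.mul_sub, Matrix.mul_one, Matrix.sub_mul, Matrix.sub_mul]
      _ = _ := tr_sub _ _
  have e2 : tr (R * R * E) ≤ tr (R * E) := by
    have h := tr_nonneg1 U E hU (fun i => r i - r i * r i)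
      (fun i => by nlinarith [h0 i, h1 i]) hE hEE
    rw [← C_sub, ← C_mul U hU, Matrix.sub_mul, tr_sub] at h
    linarith
  have e3 : (∑ i, if p i then (1 : ℝ) else 0) ≤ tr (R * E * R * E) := by
    have h := tr_nonneg2 U U E hU hU (fun i => r i - if p i then (1 : ℝ) else 0)
      (fun i => r i - if p i then (1 : ℝ) else 0)
      (fun i => by
        split_ifs with h
        · rw [hp i h]; norm_num
        · simpa using h0 i)
      (fun i => by
        split_ifs with h
        · rw [hp i h]; norm_num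
        · simpa using h0 i)
    rw [hE, ← hR'] at h
    have htA : tr EA = ∑ i, if p i then (1 : ℝ) else 0 := by
      unfold tr
      rw [hEA, C_trace U hU, Complex.ofReal_re]
    have hEAA : EA * EA = EA := by
      rw [hEA, C_mul U hU]
      congr 1
      ext i
      split_ifs <;> simp
    have e : tr (R * E * R * E) = tr EA + tr (R' * E * R' * E) := by
      rw [hRsplit]
      have x1 : (EA + R') * E * (EA + R') * E
          = EA * E * EA * E + EA * E * R' * E + R' * E * EA * E + R' * E * R' * E := by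
        simp only [Matrix.add_mul, Matrix.mul_add]; abel
      rw [x1, tr_add, tr_add, tr_add]
      have y1 : EA * E * EA * E = EA := by rw [hEAE, hEAA, hEAE]
      have y2 : tr (EA * E * R' * E) = 0 := by
        rw [hEAE, hR'A, Matrix.zero_mul, tr_zero]
      have y3 : tr (R' * E * EA * E) = 0 := by
        rw [Matrix.mul_assoc R' E EA, hEEA, Matrix.mul_assoc, hEAE, tr_comm, hR'A, tr_zero]
      rw [y1, y2, y3]
      ring
    rw [e, htA]
    linarith
  linarith

/-- The main lemma: compressing to the complement of the two eigenspaces decreases the overlap. -/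
lemma lemma5 (U V F : Matrix ι ι ℂ) (hU : Uᴴ * U = 1) (hV : Vᴴ * V = 1) (hU' : U * Uᴴ = 1)
    (hV' : V * Vᴴ = 1) (r t : ι → ℝ)
    (p q : ι → Prop) [DecidablePred p] [DecidablePred q]
    (r0 : ∀ i, 0 ≤ r i) (r1 : ∀ i, r i ≤ 1) (rp : ∀ i, p i → r i = 1)
    (t0 : ∀ i, 0 ≤ t i) (t1 : ∀ i, t i ≤ 1) (tq : ∀ i, q i → t i = 1)
    (hF : Fᴴ = F) (hFF : F * F = F)
    (hA : C U (fun i => if p i then 1 else 0) * F = 0)
    (hB : C V (fun i => if q i then 1 else 0) * F = 0)
    (hd : tr (1 - F) ≤ (∑ i, if p i then (1 : ℝ) else 0) + ∑ i, if q i then (1 : ℝ) else 0) :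
    tr (C U r * F * C V t * F) ≤ tr (C U r * C V t) := by
  set E := 1 - F with hE
  have hEF : F = 1 - E := by rw [hE]; abel
  have hEH : Eᴴ = E := by rw [hE, conjTranspose_sub, conjTranspose_one, hF]
  have hEE : E * E = E := by
    rw [hE, Matrix.mul_sub, Matrix.sub_mul, Matrix.sub_mul, hFF]; simp
  have g1 := half U E F hU r p r0 r1 rp hEH hEE hEF hA
  have g2 := half V E F hV t q t0 t1 tq hEH hEE hEF hB
  set R := C U r with hR
  set T := C V t with hT
  have hRH : Rᴴ = R := C_herm _ _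
  have hTH : Tᴴ = T := C_herm _ _
  have hsplit : R * T = R * E * T * E + R * E * T * F + R * F * T * E + R * F * T * F := by
    calc R * T = R * (E + F) * T * (E + F) := by
          have : E + F = 1 := by rw [hE]; abel
          rw [this]; simp
      _ = _ := by simp only [Matrix.add_mul, Matrix.mul_add]; abel
  have hsym : tr (R * E * T * F) = tr (R * F * T * E) := by
    rw [← tr_conj (R * E * T * F)]
    simp only [conjTranspose_mul, hRH, hTH, hEH, hF]
    calc tr (F * (T * (E * R))) = tr (F * T * E * R) := by simp only [Matrix.mul_assoc]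
      _ = tr (R * (F * T * E)) := tr_comm _ _
      _ = _ := by simp only [Matrix.mul_assoc]
  have hcross : -(hs (F * R * E) + hs (F * T * E)) ≤ 2 * tr (R * F * T * E) := by
    have h := tr_lower (F * R * E) (F * T * E)
    have e : tr ((F * R * E)ᴴ * (F * T * E)) = tr (R * F * T * E) := by
      simp only [conjTranspose_mul, hRH, hEH, hF]
      calc tr (E * (R * F) * (F * T * E)) = tr (E * (R * (F * F) * T * E)) := by
            simp only [Matrix.mul_assoc]
        _ = tr ((R * (F * F) * T * E) * E) := tr_comm _ _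
        _ = _ := by rw [hFF, Matrix.mul_assoc (R * F * T) E E, hEE]
    rw [e] at h
    exact h
  have hpos : 0 ≤ tr E - tr (R * E) - tr (T * E) + tr (R * E * T * E) := by
    have h := tr_nonneg2 U V E hU hV (fun i => 1 - r i) (fun i => 1 - t i)
      (fun i => by linarith [r1 i]) (fun i => by linarith [t1 i])
    rw [← C_sub, ← C_sub, C_one U hU', C_one V hV', hEH, ← hR, ← hT] at h
    have e : (1 - R) * E * (1 - T) * E = E - R * E - E * T * E + R * E * T * E := by
      simp only [Matrix.sub_mul, Matrix.mul_sub, Matrix.one_mul, Matrix.mul_one]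
      rw [hEE, Matrix.mul_assoc R E E, hEE]
      abel
    rw [e, tr_add, tr_sub, tr_sub] at h
    have e2 : tr (E * T * E) = tr (T * E) := by
      rw [Matrix.mul_assoc, tr_comm, Matrix.mul_assoc, hEE]
    rw [e2] at h
    exact h
  have htot : tr (R * T) = tr (R * E * T * E) + tr (R * E * T * F) + tr (R * F * T * E)
      + tr (R * F * T * F) := by
    conv_lhs => rw [hsplit]
    rw [tr_add, tr_add, tr_add]
  rw [htot, hsym]
  linarith

end lemma5

section key
variable {ι : Type*} [Fintype ι] [DecidableEq ι]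

lemma C_congr (U : Matrix ι ι ℂ) {φ ψ : ι → ℝ} (h : ∀ i, φ i = ψ i) : C U φ = C U ψ := by
  have : φ = ψ := funext h
  rw [this]

/-- Facts about one operator `A` with `A* A = U diag(α²) U*`. -/
lemma one_side (U A F : Matrix ι ι ℂ) (hU : Uᴴ * U = 1) (hU' : U * Uᴴ = 1) (α : ι → ℝ)
    (h0 : ∀ i, 0 ≤ α i) (hA : Aᴴ * A = C U (fun i => α i ^ 2))
    (hEA : C U (fun i => if 1 < α i then (1 : ℝ) else 0) * F = 0) :
    ∃ θ : Matrix ι ι ℂ, A * F = θ * C U (fun i => min (α i) 1) * F ∧
      θᴴ * θ * C U (fun i => min (α i) 1) = C U (fun i => min (α i) 1) := by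
  refine ⟨A * C U (fun i => (α i)⁻¹), ?_, ?_⟩
  · have h1 : A * C U (fun i => 1 - (α i)⁻¹ * α i) = 0 := by
      apply hs_eq_zero
      rw [← hs_tr, conjTranspose_mul, C_herm]
      have : C U (fun i => 1 - (α i)⁻¹ * α i) * Aᴴ * (A * C U (fun i => 1 - (α i)⁻¹ * α i))
          = C U (fun i => 1 - (α i)⁻¹ * α i) * (Aᴴ * A) * C U (fun i => 1 - (α i)⁻¹ * α i) := by
        simp only [Matrix.mul_assoc]
      rw [this, hA, C_mul U hU, C_mul U hU]
      unfold tr
      rw [C_trace U hU, Complex.ofReal_re]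
      refine Finset.sum_eq_zero fun i _ => ?_
      by_cases h : α i = 0
      · simp [h]
      · rw [inv_mul_cancel₀ h]; ring
    have h2 : A = A * C U (fun i => (α i)⁻¹) * C U α := by
      rw [Matrix.mul_assoc, C_mul U hU]
      have h3 : A * C U (fun i => 1 - (α i)⁻¹ * α i) + A * C U (fun i => (α i)⁻¹ * α i) = A := by
        rw [← Matrix.mul_add, C_add]
        have : C U (fun i => 1 - (α i)⁻¹ * α i + (α i)⁻¹ * α i) = 1 := by
          rw [← C_one U hU']
          exact C_congr U (fun i => by ring)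
        rw [this, Matrix.mul_one]
      rw [h1, zero_add] at h3
      exact h3.symm
    have h4 : C U α * F = C U (fun i => min (α i) 1) * F := by
      have h5 : C U (fun i => α i - min (α i) 1) * F = 0 := by
        have h6 : C U (fun i => α i - min (α i) 1)
            = C U (fun i => α i - min (α i) 1) * C U (fun i => if 1 < α i then (1 : ℝ) else 0) := by
          rw [C_mul U hU]
          refine C_congr U (fun i => ?_)
          split_ifs with h
          · ring
          · rw [min_eq_left (not_lt.mp h)]; ring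
        rw [h6, Matrix.mul_assoc, hEA, Matrix.mul_zero]
      rw [← C_sub, Matrix.sub_mul] at h5
      exact sub_eq_zero.mp h5
    calc A * F = A * C U (fun i => (α i)⁻¹) * C U α * F := by rw [← h2]
      _ = A * C U (fun i => (α i)⁻¹) * (C U α * F) := by simp only [Matrix.mul_assoc]
      _ = _ := by rw [h4]; simp only [Matrix.mul_assoc]
  · rw [conjTranspose_mul, C_herm]
    have : C U (fun i => (α i)⁻¹) * Aᴴ * (A * C U (fun i => (α i)⁻¹)) * C U (fun i => min (α i) 1)
        = C U (fun i => (α i)⁻¹) * (Aᴴ * A) * C U (fun i => (α i)⁻¹) * C U (fun i => min (α i) 1) := by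
      simp only [Matrix.mul_assoc]
    rw [this, hA, C_mul U hU, C_mul U hU, C_mul U hU]
    refine C_congr U (fun i => ?_)
    by_cases h : α i = 0
    · simp [h]
    · field_simp

/-- `tr E` and the compressed norms are controlled by the full norms. -/
lemma one_norm (U F : Matrix ι ι ℂ) (hU : Uᴴ * U = 1) (hU' : U * Uᴴ = 1) (α : ι → ℝ)
    (h0 : ∀ i, 0 ≤ α i) (hF : Fᴴ = F) (hFF : F * F = F)
    (hEA : C U (fun i => if 1 < α i then (1 : ℝ) else 0) * F = 0) :
    hs (C U (fun i => min (α i) 1) * F) + (∑ i, if 1 < α i then (1 : ℝ) else 0)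
      ≤ hs (C U (fun i => min (α i) 1)) := by
  set P := C U (fun i => min (α i) 1) with hP
  have hPH : Pᴴ = P := C_herm _ _
  set E := 1 - F with hE
  have hEH : Eᴴ = E := by rw [hE, conjTranspose_sub, conjTranspose_one, hF]
  have hEE : E * E = E := by
    rw [hE, Matrix.mul_sub, Matrix.sub_mul, Matrix.sub_mul, hFF]; simp
  have e1 : hs (P * F) = tr (P * P * F) := by
    rw [← hs_tr, conjTranspose_mul, hF, hPH]
    calc tr (F * P * (P * F)) = tr (F * (P * P * F)) := by simp only [Matrix.mul_assoc]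
      _ = tr ((P * P * F) * F) := tr_comm _ _
      _ = _ := by rw [Matrix.mul_assoc, hFF]
  have e2 : hs P = tr (P * P) := by
    rw [← hs_tr, hPH]
  have e3 : tr (P * P) = tr (P * P * F) + tr (P * P * E) := by
    rw [← tr_add, ← Matrix.mul_add, hE]
    simp
  have e4 : (∑ i, if 1 < α i then (1 : ℝ) else 0) ≤ tr (P * P * E) := by
    have h := tr_nonneg1 U E hU (fun i => min (α i) 1 * min (α i) 1 - if 1 < α i then (1 : ℝ) else 0)
      (fun i => by
        split_ifs with h
        · rw [min_eq_right h.le]; norm_num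
        · rw [sub_zero]; exact mul_self_nonneg _) hEH hEE
    rw [← C_sub, ← C_mul U hU, Matrix.sub_mul, tr_sub, ← hP] at h
    have h2 : tr (C U (fun i => if 1 < α i then (1 : ℝ) else 0) * E)
        = ∑ i, if 1 < α i then (1 : ℝ) else 0 := by
      rw [hE, Matrix.mul_sub, hEA, Matrix.mul_one, sub_zero]
      unfold tr
      rw [C_trace U hU, Complex.ofReal_re]
    rw [h2] at h
    linarith
  rw [e1, e2, e3]
  linarith

lemma hs_theta (θ P : Matrix ι ι ℂ) (hP : Pᴴ = P) (h : θᴴ * θ * P = P) :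
    hs (θ * P * θᴴ) = hs P := by
  rw [← hs_tr, ← hs_tr]
  simp only [conjTranspose_mul, conjTranspose_conjTranspose, hP]
  have h' : P * (θᴴ * θ) = P := by
    have := congrArg conjTranspose h
    simp only [conjTranspose_mul, conjTranspose_conjTranspose, hP] at this
    rw [← Matrix.mul_assoc] at this
    rw [← Matrix.mul_assoc]
    exact this
  calc tr (θ * (P * θᴴ) * (θ * P * θᴴ)) = tr (θ * (P * (θᴴ * θ * P) * θᴴ)) := by
        simp only [Matrix.mul_assoc]
    _ = tr (θ * (P * P * θᴴ)) := by rw [h]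
    _ = tr ((P * P * θᴴ) * θ) := tr_comm _ _
    _ = tr (P * (P * (θᴴ * θ))) := by simp only [Matrix.mul_assoc]
    _ = _ := by rw [h']

/-- The constant `c₀²`. -/
noncomputable def cc : ℝ := (1 + Real.sqrt 2) / 2

lemma cc_mul : cc * (cc - 1) = 1 / 4 := by
  unfold cc
  have h := Real.mul_self_sqrt (show (0 : ℝ) ≤ 2 by norm_num)
  nlinarith

lemma cc_gt : 1 < cc := by
  unfold cc
  have h : (1 : ℝ) < Real.sqrt 2 := by
    rw [Real.lt_sqrt (by norm_num)]; norm_num
  linarith

/-- Numerical endgame. -/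
lemma endgame (hp hq K y x cr : ℝ) (h1 : 0 ≤ hp) (h2 : 0 ≤ hq) (hK : 0 ≤ K) (hKK : K ^ 2 ≤ hp * hq)
    (hy : 0 ≤ y) (hyx : y ≤ x) (hcr : cr ^ 2 ≤ K * y) :
    hp + hq + 2 * cr ≤ cc * (hp + hq + 2 * x) := by
  have hc := cc_mul
  have hc1 := cc_gt
  set m := (hp + hq) / 2 with hm
  have hm0 : 0 ≤ m := by positivity
  have hKm : K ≤ m := by
    refine abs_le_of_sq_le_sq' ?_ hm0 |>.2
    nlinarith [sq_nonneg (hp - hq)]
  have hx : 0 ≤ x := le_trans hy hyx
  have hcr2 : cr ^ 2 ≤ m * x := le_trans hcr (mul_le_mul hKm hyx hy hm0)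
  have hb : cr ≤ (cc - 1) * m + cc * x := by
    have hnn : 0 ≤ (cc - 1) * m + cc * x := by
      have : 0 ≤ cc - 1 := by linarith
      have : 0 ≤ cc := by linarith
      positivity
    refine abs_le_of_sq_le_sq' ?_ hnn |>.2
    have : ((cc - 1) * m + cc * x) ^ 2 = ((cc - 1) * m - cc * x) ^ 2 + 4 * (cc * (cc - 1)) * (m * x) := by
      ring
    rw [this, hc]
    nlinarith [sq_nonneg ((cc - 1) * m - cc * x)]
  have : hp + hq = 2 * m := by rw [hm]; ring
  rw [this]
  linarith

/-- The inequality for `f(x) = min(x, 1)`. -/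
lemma key (U V W A B : Matrix ι ι ℂ) (hU : Uᴴ * U = 1) (hU' : U * Uᴴ = 1)
    (hV : Vᴴ * V = 1) (hV' : V * Vᴴ = 1) (hW : Wᴴ * W = 1) (hW' : W * Wᴴ = 1)
    (α β s : ι → ℝ) (ha : ∀ i, 0 ≤ α i) (hb : ∀ i, 0 ≤ β i) (hs0 : ∀ i, 0 ≤ s i)
    (hA : Aᴴ * A = C U (fun i => α i ^ 2)) (hB : Bᴴ * B = C V (fun i => β i ^ 2))
    (hS : (A + B)ᴴ * (A + B) = C W (fun i => s i ^ 2)) :
    ∑ i, min (s i) 1 ^ 2 ≤ cc * (∑ i, min (α i) 1 ^ 2 + ∑ i, min (β i) 1 ^ 2
      + 2 * ∑ i, ∑ j, min (α i) 1 * min (β j) 1 * ‖(Uᴴ * V) i j‖ ^ 2) := by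
  obtain ⟨F, hF, hFF, hEA, hEB, e, he, hle⟩ := exists_F U V hU hV (fun i => 1 < α i) (fun i => 1 < β i)
  obtain ⟨θ, hθ1, hθ2⟩ := one_side U A F hU hU' α ha hA hEA
  obtain ⟨η, hη1, hη2⟩ := one_side V B F hV hV' β hb hB hEB
  have nA := one_norm U F hU hU' α ha hF hFF hEA
  have nB := one_norm V F hV hV' β hb hF hFF hEB
  have hd : tr (1 - F) ≤ (∑ i, if 1 < α i then (1 : ℝ) else 0) + ∑ i, if 1 < β i then (1 : ℝ) else 0 := by
    unfold tr
    rw [he, Complex.ofReal_re]
    exact hle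
  have h5 := lemma5 U V F hU hV hU' hV' (fun i => min (α i) 1) (fun i => min (β i) 1)
    (fun i => 1 < α i) (fun i => 1 < β i)
    (fun i => le_min (ha i) zero_le_one) (fun i => min_le_right _ _) (fun i h => min_eq_right h.le)
    (fun i => le_min (hb i) zero_le_one) (fun i => min_le_right _ _) (fun i h => min_eq_right h.le)
    hF hFF hEA hEB hd
  set P := C U (fun i => min (α i) 1) with hP
  set Q := C V (fun i => min (β i) 1) with hQ
  have hPH : Pᴴ = P := C_herm _ _
  have hQH : Qᴴ = Q := C_herm _ _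
  set ρ := C U (fun i => Real.sqrt (min (α i) 1)) with hρ
  set τ := C V (fun i => Real.sqrt (min (β i) 1)) with hτ
  have hρH : ρᴴ = ρ := C_herm _ _
  have hτH : τᴴ = τ := C_herm _ _
  have hρρ : ρ * ρ = P := C_sqrt U hU _ (fun i => le_min (ha i) zero_le_one)
  have hττ : τ * τ = Q := C_sqrt V hV _ (fun i => le_min (hb i) zero_le_one)
  -- step 1: upper bound of the left side
  set E := 1 - F with hE
  have hEH : Eᴴ = E := by rw [hE, conjTranspose_sub, conjTranspose_one, hF]
  have hEE : E * E = E := by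
    rw [hE, Matrix.mul_sub, Matrix.sub_mul, Matrix.sub_mul, hFF]; simp
  have st1 : ∑ i, min (s i) 1 ^ 2 ≤ tr E + hs ((A + B) * F) := by
    have e1 : hs ((A + B) * F) = tr (C W (fun i => s i ^ 2) * F) := by
      rw [← hs_tr, conjTranspose_mul, hF]
      calc tr (F * (A + B)ᴴ * ((A + B) * F)) = tr (F * ((A + B)ᴴ * (A + B) * F)) := by
            simp only [Matrix.mul_assoc]
        _ = tr (((A + B)ᴴ * (A + B) * F) * F) := tr_comm _ _
        _ = _ := by rw [Matrix.mul_assoc _ F F, hFF, hS]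
    have e2 : tr (C W (fun i => min (s i) 1 ^ 2) * F) ≤ tr (C W (fun i => s i ^ 2) * F) := by
      have h := tr_nonneg1 W F hW (fun i => s i ^ 2 - min (s i) 1 ^ 2)
        (fun i => by
          have h1 : min (s i) 1 ≤ s i := min_le_left _ _
          have h2 : 0 ≤ min (s i) 1 := le_min (hs0 i) zero_le_one
          nlinarith) hF hFF
      rw [← C_sub, Matrix.sub_mul, tr_sub] at h
      linarith
    have e3 : tr (C W (fun i => min (s i) 1 ^ 2) * E) ≤ tr E := by
      have h := tr_nonneg1 W E hW (fun i => 1 - min (s i) 1 ^ 2)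
        (fun i => by
          have h1 : min (s i) 1 ≤ 1 := min_le_right _ _
          have h2 : 0 ≤ min (s i) 1 := le_min (hs0 i) zero_le_one
          nlinarith) hEH hEE
      rw [← C_sub, C_one W hW', Matrix.sub_mul, Matrix.one_mul, tr_sub] at h
      linarith
    have e4 : ∑ i, min (s i) 1 ^ 2 = tr (C W (fun i => min (s i) 1 ^ 2) * F)
        + tr (C W (fun i => min (s i) 1 ^ 2) * E) := by
      rw [← tr_add, ← Matrix.mul_add, hE]
      have : F + (1 - F) = 1 := by abel
      rw [this, Matrix.mul_one]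
      unfold tr
      rw [C_trace W hW, Complex.ofReal_re]
    rw [e1, e4]
    linarith
  -- step 2: expansion
  have st2 : hs ((A + B) * F) = hs (P * F) + hs (Q * F) + 2 * tr ((A * F)ᴴ * (B * F)) := by
    have a1 : hs (A * F) = hs (P * F) := by
      rw [hθ1, ← hs_tr, ← hs_tr]
      simp only [conjTranspose_mul, hF, hPH]
      congr 1
      calc F * (P * θᴴ) * (θ * P * F) = F * P * (θᴴ * θ * P) * F := by simp only [Matrix.mul_assoc]
        _ = _ := by rw [hθ2]; simp only [Matrix.mul_assoc]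
    have a2 : hs (B * F) = hs (Q * F) := by
      rw [hη1, ← hs_tr, ← hs_tr]
      simp only [conjTranspose_mul, hF, hQH]
      congr 1
      calc F * (Q * ηᴴ) * (η * Q * F) = F * Q * (ηᴴ * η * Q) * F := by simp only [Matrix.mul_assoc]
        _ = _ := by rw [hη2]; simp only [Matrix.mul_assoc]
    rw [← a1, ← a2, ← hs_tr, ← hs_tr, ← hs_tr]
    have x1 : ((A + B) * F)ᴴ * ((A + B) * F) = (A * F)ᴴ * (A * F) + (B * F)ᴴ * (B * F)
        + ((A * F)ᴴ * (B * F) + (B * F)ᴴ * (A * F)) := by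
      rw [Matrix.add_mul, conjTranspose_add, Matrix.add_mul, Matrix.mul_add, Matrix.mul_add]
      abel
    rw [x1, tr_add, tr_add, tr_add]
    have x2 : tr ((B * F)ᴴ * (A * F)) = tr ((A * F)ᴴ * (B * F)) := by
      rw [← tr_conj ((B * F)ᴴ * (A * F)), conjTranspose_mul, conjTranspose_conjTranspose]
    rw [x2]
    ring
  -- step 3: the cross term
  have st3 : tr ((A * F)ᴴ * (B * F)) ^ 2
      ≤ hs (τ * ηᴴ * θ * ρ) * hs (τ * F * ρ) := by
    have h := tr_cs (τ * ηᴴ * θ * ρ) (τ * F * ρ)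
    have x : tr ((τ * ηᴴ * θ * ρ)ᴴ * (τ * F * ρ)) = tr ((A * F)ᴴ * (B * F)) := by
      rw [hθ1, hη1]
      simp only [conjTranspose_mul, conjTranspose_conjTranspose, hρH, hτH, hF, hPH]
      calc tr (ρ * (θᴴ * (η * τ)) * (τ * F * ρ)) = tr (ρ * (θᴴ * η * (τ * τ) * F * ρ)) := by
            simp only [Matrix.mul_assoc]
        _ = tr ((θᴴ * η * (τ * τ) * F * ρ) * ρ) := tr_comm _ _
        _ = tr (θᴴ * η * (τ * τ) * (F * F) * (ρ * ρ)) := by
            rw [hFF]; simp only [Matrix.mul_assoc]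
        _ = tr ((θᴴ * η * Q * F) * (F * P)) := by
            rw [hρρ, hττ]; simp only [Matrix.mul_assoc]
        _ = tr ((F * P) * (θᴴ * η * Q * F)) := tr_comm _ _
        _ = _ := by simp only [Matrix.mul_assoc]
    rw [x] at h
    exact h
  have st4 : hs (τ * F * ρ) = tr (P * F * Q * F) := by
    rw [← hs_tr]
    simp only [conjTranspose_mul, hρH, hτH, hF]
    calc tr (ρ * (F * τ) * (τ * F * ρ)) = tr (ρ * (F * (τ * τ) * F * ρ)) := by
          simp only [Matrix.mul_assoc]
      _ = tr ((F * (τ * τ) * F * ρ) * ρ) := tr_comm _ _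
      _ = tr ((F * Q * F) * P) := by
          rw [← hρρ, ← hττ]; simp only [Matrix.mul_assoc]
      _ = tr (P * (F * Q * F)) := tr_comm _ _
      _ = _ := by simp only [Matrix.mul_assoc]
  have st5 : hs (τ * ηᴴ * θ * ρ) ^ 2 ≤ hs P * hs Q := by
    have h := tr_cs (θ * P * θᴴ) (η * Q * ηᴴ)
    rw [hs_theta θ P hPH hθ2, hs_theta η Q hQH hη2] at h
    have x : tr ((θ * P * θᴴ)ᴴ * (η * Q * ηᴴ)) = hs (τ * ηᴴ * θ * ρ) := by
      rw [← hs_tr]
      simp only [conjTranspose_mul, conjTranspose_conjTranspose, hρH, hτH, hPH]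
      calc tr (θ * (P * θᴴ) * (η * Q * ηᴴ)) = tr ((θ * ρ) * (ρ * θᴴ * η * Q * ηᴴ)) := by
            rw [← hρρ]; simp only [Matrix.mul_assoc]
        _ = tr ((ρ * θᴴ * η * Q * ηᴴ) * (θ * ρ)) := tr_comm _ _
        _ = _ := by rw [← hττ]; simp only [Matrix.mul_assoc]
    rw [x] at h
    exact h
  have hx : tr (P * Q) = ∑ i, ∑ j, min (α i) 1 * min (β j) 1 * ‖(Uᴴ * V) i j‖ ^ 2 := by
    unfold tr
    rw [hP, hQ, trace_CC, Complex.ofReal_re]
  have hPs : hs P = ∑ i, min (α i) 1 ^ 2 := hs_C U hU _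
  have hQs : hs Q = ∑ i, min (β i) 1 ^ 2 := hs_C V hV _
  have hend := endgame (hs P) (hs Q) (hs (τ * ηᴴ * θ * ρ)) (hs (τ * F * ρ)) (tr (P * Q))
    (tr ((A * F)ᴴ * (B * F))) (hs_nonneg _) (hs_nonneg _) (hs_nonneg _) st5 (hs_nonneg _)
    (by rw [st4]; exact h5) st3
  rw [← hx, ← hPs, ← hQs]
  linarith

end key

section scaling
variable {ι : Type*} [Fintype ι] [DecidableEq ι]

lemma C_smul (U : Matrix ι ι ℂ) (c : ℝ) (φ : ι → ℝ) : ((c : ℂ)) • C U φ = C U (fun i => c * φ i) := by
  unfold C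
  rw [← Matrix.smul_mul, ← Matrix.mul_smul, ← Matrix.diagonal_smul]
  congr 3
  ext i
  simp

/-- The inequality for `f(x) = min(x, t)`. -/
lemma key_t (U V W A B : Matrix ι ι ℂ) (hU : Uᴴ * U = 1) (hU' : U * Uᴴ = 1)
    (hV : Vᴴ * V = 1) (hV' : V * Vᴴ = 1) (hW : Wᴴ * W = 1) (hW' : W * Wᴴ = 1)
    (α β s : ι → ℝ) (ha : ∀ i, 0 ≤ α i) (hb : ∀ i, 0 ≤ β i) (hs0 : ∀ i, 0 ≤ s i)
    (hA : Aᴴ * A = C U (fun i => α i ^ 2)) (hB : Bᴴ * B = C V (fun i => β i ^ 2))
    (hS : (A + B)ᴴ * (A + B) = C W (fun i => s i ^ 2)) (t : ℝ) (ht : 0 < t) :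
    ∑ i, min (s i) t ^ 2 ≤ cc * (∑ i, min (α i) t ^ 2 + ∑ i, min (β i) t ^ 2
      + 2 * ∑ i, ∑ j, min (α i) t * min (β j) t * ‖(Uᴴ * V) i j‖ ^ 2) := by
  have hsc : ∀ (X Y : Matrix ι ι ℂ) (x : ι → ℝ), Xᴴ * X = C Y (fun i => x i ^ 2) →
      (((t⁻¹ : ℝ) : ℂ) • X)ᴴ * (((t⁻¹ : ℝ) : ℂ) • X) = C Y (fun i => (x i / t) ^ 2) := by
    intro X Y x hX
    rw [conjTranspose_smul, Matrix.smul_mul, Matrix.mul_smul, hX, smul_smul]
    have : star ((t⁻¹ : ℝ) : ℂ) * ((t⁻¹ : ℝ) : ℂ) = (((t⁻¹ * t⁻¹ : ℝ)) : ℂ) := by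
      rw [Complex.star_def, Complex.conj_ofReal]; push_cast; ring
    rw [this, C_smul]
    refine C_congr Y (fun i => ?_)
    field_simp
  have hSS : ((((t⁻¹ : ℝ) : ℂ) • A) + (((t⁻¹ : ℝ) : ℂ) • B))ᴴ * ((((t⁻¹ : ℝ) : ℂ) • A) + (((t⁻¹ : ℝ) : ℂ) • B))
      = C W (fun i => (s i / t) ^ 2) := by
    rw [← smul_add]
    exact hsc (A + B) W s hS
  have h := key U V W (((t⁻¹ : ℝ) : ℂ) • A) (((t⁻¹ : ℝ) : ℂ) • B) hU hU' hV hV' hW hW'
    (fun i => α i / t) (fun i => β i / t) (fun i => s i / t)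
    (fun i => div_nonneg (ha i) ht.le) (fun i => div_nonneg (hb i) ht.le)
    (fun i => div_nonneg (hs0 i) ht.le) (hsc A U α hA) (hsc B V β hB) hSS
  have hmin : ∀ x : ℝ, min (x / t) 1 = min x t / t := by
    intro x
    rw [← min_div_div_right ht.le, div_self ht.ne']
  simp only [hmin] at h
  have e1 : ∀ x : ι → ℝ, ∑ i, (min (x i) t / t) ^ 2 = (∑ i, min (x i) t ^ 2) / t ^ 2 := by
    intro x
    rw [Finset.sum_div]
    exact Finset.sum_congr rfl fun i _ => by rw [div_pow]
  have e2 : ∑ i, ∑ j, min (α i) t / t * (min (β j) t / t) * ‖(Uᴴ * V) i j‖ ^ 2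
      = (∑ i, ∑ j, min (α i) t * min (β j) t * ‖(Uᴴ * V) i j‖ ^ 2) / t ^ 2 := by
    rw [Finset.sum_div]
    refine Finset.sum_congr rfl fun i _ => ?_
    rw [Finset.sum_div]
    refine Finset.sum_congr rfl fun j _ => ?_
    field_simp
  rw [e1, e1, e1, e2] at h
  have ht2 : 0 < t ^ 2 := by positivity
  have h2 := mul_le_mul_of_nonneg_right h ht2.le
  rw [div_mul_cancel₀ _ ht2.ne'] at h2
  refine le_trans h2 (le_of_eq ?_)
  field_simp

end scaling

section scalar

/-- A nonnegative concave function on `[0, ∞)` is monotone. -/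
lemma concave_mono (f : ℝ → ℝ) (h0 : ∀ x, 0 ≤ x → 0 ≤ f x) (hc : ConcaveOn ℝ (Set.Ici 0) f) :
    MonotoneOn f (Set.Ici 0) := by
  intro x hx y hy hxy
  by_contra hlt
  push Not at hlt
  have hx0 : (0 : ℝ) ≤ x := hx
  have hy0 : (0 : ℝ) ≤ y := hy
  have hfy := h0 y hy0
  have hfx : 0 < f x := lt_of_le_of_lt hfy hlt
  have hxy' : x < y := lt_of_le_of_ne hxy (fun h => by rw [h] at hlt; exact lt_irrefl _ hlt)
  set l := (f x - f y) / (2 * f x) with hl
  have hl0 : 0 < l := by rw [hl]; apply div_pos <;> linarith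
  have hl1 : l < 1 := by
    rw [hl, div_lt_one (by linarith)]
    linarith
  set z := x + (y - x) / l with hz
  have hz0 : 0 ≤ z := by
    have : 0 < (y - x) / l := div_pos (by linarith) hl0
    linarith
  have hcomb : (1 - l) • x + l • z = y := by
    simp only [smul_eq_mul]
    rw [hz]
    field_simp
    ring
  have h1 := hc.2 hx (show z ∈ Set.Ici 0 from hz0) (by linarith : 0 ≤ 1 - l) hl0.le (by ring)
  rw [hcomb] at h1
  simp only [smul_eq_mul] at h1
  have h2 := h0 z hz0
  have h3 : l * (2 * f x) = f x - f y := by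
    rw [hl]
    field_simp
  nlinarith

/-- Discrete decomposition of a concave monotone function. -/
lemma decomp (h : ℝ → ℝ) (hc : ConcaveOn ℝ (Set.Ici 0) h) (hm : MonotoneOn h (Set.Ici 0))
    (T : Finset ℝ) : (∀ t ∈ T, 0 < t) →
    ∃ c : ℝ → ℝ, (∀ t, 0 ≤ c t) ∧ (∀ y ∈ insert 0 T, h y = h 0 + ∑ t ∈ T, c t * min y t) ∧
      (∀ m ∈ T, (∀ t ∈ T, t ≤ m) → ∀ z, m < z → h z - h m ≤ c m * (z - m)) := by
  induction T using Finset.induction_on_max with
  | empty =>
    intro _
    refine ⟨fun _ => 0, fun _ => le_refl 0, ?_, ?_⟩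
    · intro y hy
      simp at hy
      rw [hy]; simp
    · intro m hm'
      simp at hm'
  | insert z T hz ih =>
    intro hpos
    have hzpos : 0 < z := hpos z (Finset.mem_insert_self z T)
    have hzT : z ∉ T := fun hmem => lt_irrefl _ (hz z hmem)
    obtain ⟨c, hc0, hc1, hc2⟩ := ih (fun t ht => hpos t (Finset.mem_insert_of_mem ht))
    have hmax : ∀ m ∈ insert z T, (∀ t ∈ insert z T, t ≤ m) → m = z := by
      intro m hmem hle
      rcases Finset.mem_insert.mp hmem with h1 | h1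
      · exact h1
      · exact absurd (hle z (Finset.mem_insert_self z T)) (not_le.mpr (hz m h1))
    rcases T.eq_empty_or_nonempty with hT | hT
    · subst hT
      refine ⟨fun _ => (h z - h 0) / z, fun _ => ?_, ?_, ?_⟩
      · apply div_nonneg _ hzpos.le
        have := hm (show (0 : ℝ) ∈ Set.Ici 0 from Set.self_mem_Ici) (show z ∈ Set.Ici 0 from hzpos.le) hzpos.le
        linarith
      · intro y hy
        simp only [Finset.insert_empty, Finset.mem_insert, Finset.mem_singleton] at hy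
        rw [Finset.insert_empty, Finset.sum_singleton]
        rcases hy with rfl | rfl
        · rw [min_eq_left hzpos.le]; ring
        · rw [min_self]; field_simp; ring
      · intro m hmem hle w hw
        have hmz := hmax m hmem hle
        subst hmz
        have hsl := hc.slope_anti_adjacent (show (0 : ℝ) ∈ Set.Ici 0 from Set.self_mem_Ici)
          (show w ∈ Set.Ici 0 from (hzpos.trans hw).le) hzpos hw
        rw [sub_zero, div_le_iff₀ (by linarith)] at hsl
        exact hsl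
    · set m := T.max' hT with hmdef
      have hmT : m ∈ T := T.max'_mem hT
      have hle : ∀ t ∈ T, t ≤ m := fun t ht => T.le_max' t ht
      have hmpos : 0 < m := hpos m (Finset.mem_insert_of_mem hmT)
      have hmz : m < z := hz m hmT
      set δ := (h z - h m) / (z - m) with hδ
      have hδ0 : 0 ≤ δ := by
        apply div_nonneg _ (by linarith)
        have := hm (show m ∈ Set.Ici 0 from hmpos.le) (show z ∈ Set.Ici 0 from hzpos.le) hmz.le
        linarith
      have hδm : δ * (z - m) = h z - h m := by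
        rw [hδ, div_mul_cancel₀]
        linarith
      have hδc : δ ≤ c m := by
        have h1 := hc2 m hmT hle z hmz
        rw [← hδm] at h1
        exact le_of_mul_le_mul_right h1 (by linarith)
      refine ⟨fun t => if t = z then δ else if t = m then c m - δ else c t, ?_, ?_, ?_⟩
      · intro t
        show 0 ≤ (if t = z then δ else if t = m then c m - δ else c t)
        split_ifs
        · exact hδ0
        · linarith
        · exact hc0 t
      · have hsum : ∀ y, ∑ t ∈ T, (if t = z then δ else if t = m then c m - δ else c t) * min y t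
            = ∑ t ∈ T, c t * min y t - δ * min y m := by
          intro y
          have e1 : ∀ t ∈ T, (if t = z then δ else if t = m then c m - δ else c t) * min y t
              = c t * min y t - (if t = m then δ * min y m else 0) := by
            intro t ht
            have hne : t ≠ z := fun h => hzT (h ▸ ht)
            rw [if_neg hne]
            by_cases htm : t = m
            · rw [if_pos htm, if_pos htm, htm]; ring
            · rw [if_neg htm, if_neg htm]; ring
          rw [Finset.sum_congr rfl e1, Finset.sum_sub_distrib, Finset.sum_ite_eq' T m]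
          rw [if_pos hmT]
        intro y hy
        rw [Finset.sum_insert hzT]
        simp only [if_true]
        rw [hsum]
        have hcase : y = z ∨ y ∈ insert 0 T := by
          rcases Finset.mem_insert.mp hy with h1 | h1
          · right; rw [h1]; exact Finset.mem_insert_self 0 T
          · rcases Finset.mem_insert.mp h1 with h2 | h2
            · left; exact h2
            · right; exact Finset.mem_insert_of_mem h2
        rcases hcase with hy1 | hy1
        · rw [hy1, min_self, min_eq_right hmz.le]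
          have h1 := hc1 m (Finset.mem_insert_of_mem hmT)
          have h2 : ∑ t ∈ T, c t * min z t = ∑ t ∈ T, c t * min m t := by
            refine Finset.sum_congr rfl fun t ht => ?_
            rw [min_eq_right (hle t ht), min_eq_right (le_trans (hle t ht) hmz.le)]
          rw [h2]
          linarith
        · have hym : y ≤ m := by
            rcases Finset.mem_insert.mp hy1 with h2 | h2
            · rw [h2]; exact hmpos.le
            · exact hle y h2
          rw [min_eq_left (le_trans hym hmz.le), min_eq_left hym]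
          have h1 := hc1 y hy1
          linarith
      · intro m' hmem hle' w hw
        have hmz' := hmax m' hmem hle'
        subst hmz'
        simp only [if_true]
        have hsl := hc.slope_anti_adjacent (show m ∈ Set.Ici (0 : ℝ) from hmpos.le)
          (show w ∈ Set.Ici (0 : ℝ) from (hzpos.trans hw).le) hmz hw
        rw [div_le_iff₀ (by linarith)] at hsl
        exact hsl

/-- `y ↦ f(√y)²` is concave. -/
lemma concave_sq (f : ℝ → ℝ) (h0 : ∀ x, 0 ≤ x → 0 ≤ f x) (hc : ConcaveOn ℝ (Set.Ici 0) f) :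
    ConcaveOn ℝ (Set.Ici 0) (fun y => f (Real.sqrt y) ^ 2) := by
  have hmono := concave_mono f h0 hc
  -- it suffices to treat x < y
  have main : ∀ x y : ℝ, 0 ≤ x → x < y → ∀ a b : ℝ, 0 ≤ a → 0 ≤ b → a + b = 1 →
      a * f (Real.sqrt x) ^ 2 + b * f (Real.sqrt y) ^ 2 ≤ f (Real.sqrt (a * x + b * y)) ^ 2 := by
    intro x y hx hxy a b ha hb hab
    set u := Real.sqrt x with hu
    set v := Real.sqrt y with hv
    have hy : 0 ≤ y := hx.trans hxy.le
    have hu0 : 0 ≤ u := Real.sqrt_nonneg _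
    have hv0 : 0 ≤ v := Real.sqrt_nonneg _
    have hux : u ^ 2 = x := Real.sq_sqrt hx
    have hvy : v ^ 2 = y := Real.sq_sqrt hy
    have huv : u < v := Real.sqrt_lt_sqrt hx hxy
    set w := Real.sqrt (a * x + b * y) with hw
    have hw0 : 0 ≤ w := Real.sqrt_nonneg _
    have hwn : 0 ≤ a * x + b * y := by positivity
    have hww : w ^ 2 = a * x + b * y := Real.sq_sqrt hwn
    have huw : u ≤ w := by
      apply Real.sqrt_le_sqrt
      nlinarith
    have hwv : w ≤ v := by
      apply Real.sqrt_le_sqrt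
      nlinarith
    -- slopes
    set D := v - u with hD
    have hD0 : 0 < D := by linarith
    set k := (f v - f u) / D with hk
    have hk0 : 0 ≤ k := by
      apply div_nonneg _ hD0.le
      have := hmono (show u ∈ Set.Ici (0 : ℝ) from hu0) (show v ∈ Set.Ici (0 : ℝ) from hv0) huv.le
      linarith
    set q := f u - k * u with hq
    have hfu : f u = k * u + q := by rw [hq]; ring
    have hfv : f v = k * v + q := by
      have : k * D = f v - f u := by rw [hk, div_mul_cancel₀ _ hD0.ne']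
      rw [hq]
      have : k * v - k * u = f v - f u := by rw [← this, hD]; ring
      linarith
    have hq0 : 0 ≤ q := by
      rcases eq_or_lt_of_le hu0 with h1 | h1
      · rw [hq, ← h1, mul_zero, sub_zero]; exact h0 0 (le_refl 0)
      · have hsl := hc.slope_anti_adjacent (show (0 : ℝ) ∈ Set.Ici (0 : ℝ) from Set.self_mem_Ici)
          (show v ∈ Set.Ici (0 : ℝ) from hv0) h1 huv
        rw [← hD, ← hk, sub_zero, le_div_iff₀ h1] at hsl
        have := h0 0 (le_refl 0)
        rw [hq]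
        linarith
    have hfw : k * w + q ≤ f w := by
      -- concavity between u and v
      have h1 := hc.2 (show u ∈ Set.Ici (0 : ℝ) from hu0) (show v ∈ Set.Ici (0 : ℝ) from hv0)
        (div_nonneg (by linarith : 0 ≤ v - w) hD0.le) (div_nonneg (by linarith : 0 ≤ w - u) hD0.le)
        (by rw [← add_div, div_eq_one_iff_eq hD0.ne']; rw [hD]; ring)
      have h2 : ((v - w) / D) • u + ((w - u) / D) • v = w := by
        simp only [smul_eq_mul]
        have : D ≠ 0 := hD0.ne'
        field_simp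
        rw [hD]; ring
      rw [h2] at h1
      simp only [smul_eq_mul] at h1
      refine le_trans (le_of_eq ?_) h1
      rw [hfu, hfv]
      have : D ≠ 0 := hD0.ne'
      field_simp
      rw [hD]; ring
    have hjen : a * u + b * v ≤ w := by
      apply Real.le_sqrt_of_sq_le
      have : a * x + b * y - (a * u + b * v) ^ 2 = a * b * (u - v) ^ 2 := by
        rw [← hux, ← hvy]
        have hb' : b = 1 - a := by linarith
        rw [hb']; ring
      nlinarith [mul_nonneg (mul_nonneg ha hb) (sq_nonneg (u - v))]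
    have hlin : (k * w + q) ^ 2 ≤ f w ^ 2 := by
      apply pow_le_pow_left₀ _ hfw
      positivity
    refine le_trans ?_ hlin
    rw [hfu, hfv]
    have e1 : a * (k * u + q) ^ 2 + b * (k * v + q) ^ 2
        = k ^ 2 * (a * u ^ 2 + b * v ^ 2) + 2 * k * q * (a * u + b * v) + (a + b) * q ^ 2 := by ring
    rw [e1, hux, hvy, hab, ← hww]
    have e2 : (k * w + q) ^ 2 = k ^ 2 * w ^ 2 + 2 * k * q * w + 1 * q ^ 2 := by ring
    rw [e2]
    have : 2 * k * q * (a * u + b * v) ≤ 2 * k * q * w :=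
      mul_le_mul_of_nonneg_left hjen (by positivity)
    linarith
  refine ⟨convex_Ici 0, ?_⟩
  intro x hx y hy a b ha hb hab
  simp only [smul_eq_mul]
  have hx0 : (0 : ℝ) ≤ x := hx
  have hy0 : (0 : ℝ) ≤ y := hy
  rcases lt_trichotomy x y with h | h | h
  · exact main x y hx0 h a b ha hb hab
  · subst h
    have : a * x + b * x = x := by rw [← add_mul, hab, one_mul]
    rw [this, ← add_mul, hab, one_mul]
  · have := main y x hy0 h b a hb ha (by linarith)
    rw [add_comm (a * x), add_comm (a * f (Real.sqrt x) ^ 2)]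
    exact this

end scalar

/-- The Frobenius (Schatten 2) norm `(tr X*X)^{1/2}`. -/
noncomputable def frob {n : ℕ} (X : Matrix (Fin n) (Fin n) ℂ) : ℝ :=
  Real.sqrt (Xᴴ * X).trace.re

/-- The absolute value `|X| = (X*X)^{1/2}`. -/
noncomputable def absM {n : ℕ} (X : Matrix (Fin n) (Fin n) ℂ) : Matrix (Fin n) (Fin n) ℂ :=
  cfc Real.sqrt (Xᴴ * X)

section final

lemma fin_cont {n : ℕ} {M : Matrix (Fin n) (Fin n) ℂ} (g f : ℝ → ℝ) :
    ContinuousOn f (g '' spectrum ℝ M) :=
  ((Matrix.finite_real_spectrum (A := M)).image g).continuousOn f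

open scoped ComplexOrder in
/-- Spectral form of `f(|X|)`. -/
lemma cfc_abs {n : ℕ} (X : Matrix (Fin n) (Fin n) ℂ) :
    ∃ (U : Matrix (Fin n) (Fin n) ℂ) (x : Fin n → ℝ), Uᴴ * U = 1 ∧ U * Uᴴ = 1 ∧ (∀ i, 0 ≤ x i) ∧
      Xᴴ * X = C U (fun i => x i ^ 2) ∧ ∀ f : ℝ → ℝ, cfc f (absM X) = C U (fun i => f (x i)) := by
  have hX : (Xᴴ * X).IsHermitian := isHermitian_conjTranspose_mul_self X
  have hpos : (Xᴴ * X).PosSemidef := posSemidef_conjTranspose_mul_self X
  have hev : ∀ i, 0 ≤ hX.eigenvalues i := fun i => hpos.eigenvalues_nonneg i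
  refine ⟨(hX.eigenvectorUnitary : Matrix (Fin n) (Fin n) ℂ), fun i => Real.sqrt (hX.eigenvalues i),
    Matrix.mem_unitaryGroup_iff'.mp hX.eigenvectorUnitary.2,
    Matrix.mem_unitaryGroup_iff.mp hX.eigenvectorUnitary.2, fun i => Real.sqrt_nonneg _, ?_, ?_⟩
  · have hs := hX.spectral_theorem
    rw [Unitary.conjStarAlgAut_apply] at hs
    have e : C (hX.eigenvectorUnitary : Matrix (Fin n) (Fin n) ℂ) (fun i => Real.sqrt (hX.eigenvalues i) ^ 2)
        = C (hX.eigenvectorUnitary : Matrix (Fin n) (Fin n) ℂ) hX.eigenvalues :=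
      C_congr _ (fun i => Real.sq_sqrt (hev i))
    rw [e]
    exact hs
  · intro f
    unfold absM
    have hcont : ContinuousOn f (Real.sqrt '' spectrum ℝ (Xᴴ * X)) :=
      ((Matrix.finite_real_spectrum (A := Xᴴ * X)).image _).continuousOn f
    have hcont2 : ContinuousOn Real.sqrt (spectrum ℝ (Xᴴ * X)) := Real.continuous_sqrt.continuousOn
    have e1 : cfc (f ∘ Real.sqrt) (Xᴴ * X) = cfc f (cfc Real.sqrt (Xᴴ * X)) :=
      cfc_comp f Real.sqrt (Xᴴ * X) hX hcont hcont2
    have e2 : cfc (f ∘ Real.sqrt) (Xᴴ * X) = hX.cfc (f ∘ Real.sqrt) := hX.cfc_eq _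
    refine e1.symm.trans (e2.trans ?_)
    unfold Matrix.IsHermitian.cfc
    rw [Unitary.conjStarAlgAut_apply]
    rfl

/-- Sanity check: `|X|` is positive semidefinite and its square is `X*X`. -/
lemma absM_spec {n : ℕ} (X : Matrix (Fin n) (Fin n) ℂ) :
    (absM X).IsHermitian ∧ absM X * absM X = Xᴴ * X := by
  obtain ⟨U, x, hU, hU', hx, hX, hf⟩ := cfc_abs X
  have h1 : absM X = C U x := by
    have h2 := hf id
    have h3 : cfc (id : ℝ → ℝ) (absM X) = absM X := by
      apply cfc_id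
      unfold absM
      exact cfc_predicate _ _
    rw [h3] at h2
    exact h2
  refine ⟨?_, ?_⟩
  · rw [h1]; exact C_herm _ _
  · rw [h1, C_mul U hU, hX]
    exact C_congr U (fun i => (sq (x i)).symm)

open scoped ComplexOrder in
/-- Sanity check: `|X|` is positive semidefinite. -/
lemma absM_posSemidef {n : ℕ} (X : Matrix (Fin n) (Fin n) ℂ) : (absM X).PosSemidef := by
  obtain ⟨U, x, hU, hU', hx, hX, hf⟩ := cfc_abs X
  have h1 : absM X = C U x := by
    have h2 := hf id
    have h3 : cfc (id : ℝ → ℝ) (absM X) = absM X := by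
      apply cfc_id
      unfold absM
      exact cfc_predicate _ _
    rw [h3] at h2
    exact h2
  rw [h1]
  unfold C
  apply Matrix.PosSemidef.mul_mul_conjTranspose_same
  rw [Matrix.posSemidef_diagonal_iff]
  intro i
  exact_mod_cast hx i

end final

/-- Lee's conjecture for the Frobenius norm: for all square complex matrices `A`, `B` and every
concave `f : [0,∞) → [0,∞)`, `‖f(|A+B|)‖₂ ≤ √((1+√2)/2) ‖f(|A|) + f(|B|)‖₂`. -/
theorem result (n : ℕ) (A B : Matrix (Fin n) (Fin n) ℂ) (f : ℝ → ℝ)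
    (hf0 : ∀ x, 0 ≤ x → 0 ≤ f x) (hf : ConcaveOn ℝ (Set.Ici 0) f) :
    frob (cfc f (absM (A + B)))
      ≤ Real.sqrt ((1 + Real.sqrt 2) / 2) * frob (cfc f (absM A) + cfc f (absM B)) := by
  obtain ⟨U, α, hU, hU', hα, hA, hfA⟩ := cfc_abs A
  obtain ⟨V, β, hV, hV', hβ, hB, hfB⟩ := cfc_abs B
  obtain ⟨W, s, hW, hW', hs0, hS, hfS⟩ := cfc_abs (A + B)
  have hcc0 : 0 ≤ cc := by linarith [cc_gt]
  have hfr : ∀ X : Matrix (Fin n) (Fin n) ℂ, frob X = Real.sqrt (hs X) := by
    intro X
    unfold frob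
    rw [hs_trace, Complex.ofReal_re]
  rw [hfr, hfr, hfA, hfB, hfS, show (1 + Real.sqrt 2) / 2 = cc from rfl, ← Real.sqrt_mul hcc0]
  apply Real.sqrt_le_sqrt
  -- the weights
  set w : Fin n → Fin n → ℝ := fun i j => ‖(Uᴴ * V) i j‖ ^ 2 with hw
  have hw0 : ∀ i j, 0 ≤ w i j := fun i j => sq_nonneg _
  have hRHS : hs (C U (fun i => f (α i)) + C V (fun i => f (β i)))
      = ∑ i, f (α i) ^ 2 + ∑ i, f (β i) ^ 2 + 2 * ∑ i, ∑ j, f (α i) * f (β j) * w i j := by
    rw [← hs_tr, conjTranspose_add, C_herm, C_herm, Matrix.add_mul, Matrix.mul_add, Matrix.mul_add,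
      tr_add, tr_add, tr_add, C_mul U hU, C_mul V hV, tr_comm (C V fun i => f (β i))]
    have e1 : tr (C U (fun i => f (α i) * f (α i))) = ∑ i, f (α i) ^ 2 := by
      unfold tr
      rw [C_trace U hU, Complex.ofReal_re]
      exact Finset.sum_congr rfl fun i _ => (sq _).symm
    have e2 : tr (C V (fun i => f (β i) * f (β i))) = ∑ i, f (β i) ^ 2 := by
      unfold tr
      rw [C_trace V hV, Complex.ofReal_re]
      exact Finset.sum_congr rfl fun i _ => (sq _).symm
    have e3 : tr (C U (fun i => f (α i)) * C V (fun i => f (β i)))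
        = ∑ i, ∑ j, f (α i) * f (β j) * w i j := by
      unfold tr
      rw [trace_CC, Complex.ofReal_re]
    rw [e1, e2, e3]
    ring
  rw [hRHS, hs_C W hW]
  -- decomposition of h(y) = f(√y)²
  set h : ℝ → ℝ := fun y => f (Real.sqrt y) ^ 2 with hh
  have hconc := concave_sq f hf0 hf
  have hmono : MonotoneOn h (Set.Ici 0) :=
    concave_mono h (fun x _ => sq_nonneg _) hconc
  set T : Finset ℝ := (Finset.univ.image (fun i => α i ^ 2) ∪ Finset.univ.image (fun i => β i ^ 2)
    ∪ Finset.univ.image (fun i => s i ^ 2)).erase 0 with hT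
  have hTpos : ∀ t ∈ T, 0 < t := by
    intro t ht
    rw [hT, Finset.mem_erase] at ht
    obtain ⟨hne, hmem⟩ := ht
    have h0 : 0 ≤ t := by
      rcases Finset.mem_union.mp hmem with h1 | h1
      · rcases Finset.mem_union.mp h1 with h2 | h2
        · obtain ⟨i, _, rfl⟩ := Finset.mem_image.mp h2; positivity
        · obtain ⟨i, _, rfl⟩ := Finset.mem_image.mp h2; positivity
      · obtain ⟨i, _, rfl⟩ := Finset.mem_image.mp h1; positivity
    exact lt_of_le_of_ne h0 (Ne.symm hne)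
  obtain ⟨c, hc0, hc1, _⟩ := decomp h hconc hmono T hTpos
  have hval : ∀ x : ℝ, 0 ≤ x → x ^ 2 ∈ insert 0 T →
      f x ^ 2 = h 0 + ∑ t ∈ T, c t * min x (Real.sqrt t) ^ 2 := by
    intro x hx hmem
    have h1 := hc1 (x ^ 2) hmem
    have h2 : h (x ^ 2) = f x ^ 2 := by
      simp only [hh]
      rw [Real.sqrt_sq hx]
    rw [h2] at h1
    rw [h1]
    congr 1
    refine Finset.sum_congr rfl fun t ht => ?_
    congr 1
    have ht0 := (hTpos t ht).le
    rcases le_total x (Real.sqrt t) with h3 | h3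
    · rw [min_eq_left h3, min_eq_left]
      calc x ^ 2 ≤ Real.sqrt t ^ 2 := pow_le_pow_left₀ hx h3 2
        _ = t := Real.sq_sqrt ht0
    · rw [min_eq_right h3, Real.sq_sqrt ht0, min_eq_right]
      calc t = Real.sqrt t ^ 2 := (Real.sq_sqrt ht0).symm
        _ ≤ x ^ 2 := pow_le_pow_left₀ (Real.sqrt_nonneg _) h3 2
  have mem_of : ∀ y : ℝ, y ∈ (Finset.univ.image (fun i => α i ^ 2) ∪ Finset.univ.image (fun i => β i ^ 2)
    ∪ Finset.univ.image (fun i => s i ^ 2)) → y ∈ insert 0 T := by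
    intro y hy
    by_cases h0 : y = 0
    · rw [h0]; exact Finset.mem_insert_self _ _
    · exact Finset.mem_insert_of_mem (Finset.mem_erase.mpr ⟨h0, hy⟩)
  have hvα : ∀ i, f (α i) ^ 2 = h 0 + ∑ t ∈ T, c t * min (α i) (Real.sqrt t) ^ 2 := fun i =>
    hval _ (hα i) (mem_of _ (Finset.mem_union_left _ (Finset.mem_union_left _
      (Finset.mem_image_of_mem _ (Finset.mem_univ i)))))
  have hvβ : ∀ i, f (β i) ^ 2 = h 0 + ∑ t ∈ T, c t * min (β i) (Real.sqrt t) ^ 2 := fun i =>
    hval _ (hβ i) (mem_of _ (Finset.mem_union_left _ (Finset.mem_union_right _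
      (Finset.mem_image_of_mem _ (Finset.mem_univ i)))))
  have hvs : ∀ i, f (s i) ^ 2 = h 0 + ∑ t ∈ T, c t * min (s i) (Real.sqrt t) ^ 2 := fun i =>
    hval _ (hs0 i) (mem_of _ (Finset.mem_union_right _
      (Finset.mem_image_of_mem _ (Finset.mem_univ i))))
  have hκ : 0 ≤ h 0 := sq_nonneg _
  -- the cross terms, by Cauchy-Schwarz
  have hcross : ∀ i j, ∑ t ∈ T, c t * (min (α i) (Real.sqrt t) * min (β j) (Real.sqrt t))
      ≤ f (α i) * f (β j) := by
    intro i j
    have h1 := Finset.sum_mul_sq_le_sq_mul_sq T (fun t => Real.sqrt (c t) * min (α i) (Real.sqrt t))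
      (fun t => Real.sqrt (c t) * min (β j) (Real.sqrt t))
    have e0 : ∑ t ∈ T, Real.sqrt (c t) * min (α i) (Real.sqrt t) * (Real.sqrt (c t) * min (β j) (Real.sqrt t))
        = ∑ t ∈ T, c t * (min (α i) (Real.sqrt t) * min (β j) (Real.sqrt t)) := by
      refine Finset.sum_congr rfl fun t _ => ?_
      have := Real.mul_self_sqrt (hc0 t)
      calc _ = (Real.sqrt (c t) * Real.sqrt (c t)) * (min (α i) (Real.sqrt t) * min (β j) (Real.sqrt t)) := by
            ring
        _ = _ := by rw [this]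
    have e1 : ∀ x : ℝ, ∑ t ∈ T, (Real.sqrt (c t) * min x (Real.sqrt t)) ^ 2
        = ∑ t ∈ T, c t * min x (Real.sqrt t) ^ 2 := by
      intro x
      refine Finset.sum_congr rfl fun t _ => ?_
      rw [mul_pow, Real.sq_sqrt (hc0 t)]
    rw [e0, e1, e1] at h1
    have hfα := hf0 _ (hα i)
    have hfβ := hf0 _ (hβ j)
    have b1 : ∑ t ∈ T, c t * min (α i) (Real.sqrt t) ^ 2 ≤ f (α i) ^ 2 := by
      rw [hvα i]; linarith
    have b2 : ∑ t ∈ T, c t * min (β j) (Real.sqrt t) ^ 2 ≤ f (β j) ^ 2 := by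
      rw [hvβ j]; linarith
    have n2 : 0 ≤ ∑ t ∈ T, c t * min (β j) (Real.sqrt t) ^ 2 :=
      Finset.sum_nonneg fun t _ => mul_nonneg (hc0 t) (sq_nonneg _)
    have h2 : (∑ t ∈ T, c t * (min (α i) (Real.sqrt t) * min (β j) (Real.sqrt t))) ^ 2
        ≤ (f (α i) * f (β j)) ^ 2 := by
      refine le_trans h1 ?_
      rw [mul_pow]
      exact mul_le_mul b1 b2 n2 (sq_nonneg _)
    exact (abs_le_of_sq_le_sq' h2 (mul_nonneg hfα hfβ)).2
  -- sum up
  have hkey : ∀ t ∈ T, ∑ i, min (s i) (Real.sqrt t) ^ 2 ≤ cc * (∑ i, min (α i) (Real.sqrt t) ^ 2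
      + ∑ i, min (β i) (Real.sqrt t) ^ 2
      + 2 * ∑ i, ∑ j, min (α i) (Real.sqrt t) * min (β j) (Real.sqrt t) * w i j) := fun t ht =>
    key_t U V W A B hU hU' hV hV' hW hW' α β s hα hβ hs0 hA hB hS (Real.sqrt t)
      (Real.sqrt_pos.mpr (hTpos t ht))
  have L : ∑ i, f (s i) ^ 2 = n * h 0 + ∑ t ∈ T, c t * ∑ i, min (s i) (Real.sqrt t) ^ 2 := by
    rw [Finset.sum_congr rfl (fun i _ => hvs i), Finset.sum_add_distrib, Finset.sum_const,
      Finset.card_univ, Fintype.card_fin, nsmul_eq_mul, Finset.sum_comm]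
    congr 1
    exact Finset.sum_congr rfl fun t _ => by rw [Finset.mul_sum]
  have R1 : ∑ i, f (α i) ^ 2 = n * h 0 + ∑ t ∈ T, c t * ∑ i, min (α i) (Real.sqrt t) ^ 2 := by
    rw [Finset.sum_congr rfl (fun i _ => hvα i), Finset.sum_add_distrib, Finset.sum_const,
      Finset.card_univ, Fintype.card_fin, nsmul_eq_mul, Finset.sum_comm]
    congr 1
    exact Finset.sum_congr rfl fun t _ => by rw [Finset.mul_sum]
  have R2 : ∑ i, f (β i) ^ 2 = n * h 0 + ∑ t ∈ T, c t * ∑ i, min (β i) (Real.sqrt t) ^ 2 := by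
    rw [Finset.sum_congr rfl (fun i _ => hvβ i), Finset.sum_add_distrib, Finset.sum_const,
      Finset.card_univ, Fintype.card_fin, nsmul_eq_mul, Finset.sum_comm]
    congr 1
    exact Finset.sum_congr rfl fun t _ => by rw [Finset.mul_sum]
  have R3 : ∑ t ∈ T, c t * ∑ i, ∑ j, min (α i) (Real.sqrt t) * min (β j) (Real.sqrt t) * w i j
      ≤ ∑ i, ∑ j, f (α i) * f (β j) * w i j := by
    have e : ∑ t ∈ T, c t * ∑ i, ∑ j, min (α i) (Real.sqrt t) * min (β j) (Real.sqrt t) * w i j
        = ∑ i, ∑ j, (∑ t ∈ T, c t * (min (α i) (Real.sqrt t) * min (β j) (Real.sqrt t))) * w i j := by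
      calc ∑ t ∈ T, c t * ∑ i, ∑ j, min (α i) (Real.sqrt t) * min (β j) (Real.sqrt t) * w i j
          = ∑ t ∈ T, ∑ i, ∑ j, c t * (min (α i) (Real.sqrt t) * min (β j) (Real.sqrt t)) * w i j := by
            refine Finset.sum_congr rfl fun t _ => ?_
            rw [Finset.mul_sum]
            refine Finset.sum_congr rfl fun i _ => ?_
            rw [Finset.mul_sum]
            refine Finset.sum_congr rfl fun j _ => ?_
            ring
        _ = _ := by
            rw [Finset.sum_comm]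
            refine Finset.sum_congr rfl fun i _ => ?_
            rw [Finset.sum_comm]
            refine Finset.sum_congr rfl fun j _ => ?_
            rw [Finset.sum_mul]
    rw [e]
    exact Finset.sum_le_sum fun i _ => Finset.sum_le_sum fun j _ =>
      mul_le_mul_of_nonneg_right (hcross i j) (hw0 i j)
  have S1 : ∑ t ∈ T, c t * ∑ i, min (s i) (Real.sqrt t) ^ 2
      ≤ cc * (∑ t ∈ T, c t * ∑ i, min (α i) (Real.sqrt t) ^ 2
        + ∑ t ∈ T, c t * ∑ i, min (β i) (Real.sqrt t) ^ 2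
        + 2 * ∑ t ∈ T, c t * ∑ i, ∑ j, min (α i) (Real.sqrt t) * min (β j) (Real.sqrt t) * w i j) := by
    calc ∑ t ∈ T, c t * ∑ i, min (s i) (Real.sqrt t) ^ 2
        ≤ ∑ t ∈ T, c t * (cc * (∑ i, min (α i) (Real.sqrt t) ^ 2
      + ∑ i, min (β i) (Real.sqrt t) ^ 2
      + 2 * ∑ i, ∑ j, min (α i) (Real.sqrt t) * min (β j) (Real.sqrt t) * w i j)) :=
          Finset.sum_le_sum fun t ht => mul_le_mul_of_nonneg_left (hkey t ht) (hc0 t)
      _ = _ := by
          rw [mul_add, mul_add, Finset.mul_sum, Finset.mul_sum, Finset.mul_sum, Finset.mul_sum,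
            ← Finset.sum_add_distrib, ← Finset.sum_add_distrib]
          refine Finset.sum_congr rfl fun t _ => ?_
          ring
  have hn : (0 : ℝ) ≤ n * h 0 := by positivity
  have hcc1 := cc_gt
  rw [L, R1, R2]
  nlinarith [mul_le_mul_of_nonneg_left R3 hcc0, mul_nonneg (sub_nonneg.mpr hcc1.le) hn]

end Pool.Agent.Results.MP_46ffdd_an.LeeConcaveFrobenius
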